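import Pool.Agent.Helper85.IA.St

/-!
# Project IA, part N, module MNF: means of the statistics of one round
-/

set_option autoImplicit false

namespace Pool.Agent.Helper33.IA85

open Finset Pool.Agent.Helper93.IA Pool.Agent.Helper85.IA

section

variable {α β γ : Type} [Fintype α] [Fintype β] [Fintype γ] [DecidableEq α] [DecidableEq β]
  [DecidableEq γ]

private theorem us_nonneg (σ : α × β → Option γ) (a : α) (b : β) (c : γ) : 0 ≤ us σ a b c := by
  unfold us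
  split_ifs <;> norm_num

private theorem kA_nonneg (σ : α × β → Option γ) (a : α) (b : β) : 0 ≤ kA σ a b :=
  Finset.sum_nonneg fun c _ => us_nonneg σ a b c

private theorem kB_nonneg (σ : α × β → Option γ) (b : β) (c : γ) : 0 ≤ kB σ b c :=
  Finset.sum_nonneg fun a _ => us_nonneg σ a b c

private theorem kC_nonneg (σ : α × β → Option γ) (c : γ) (a : α) : 0 ≤ kC σ c a :=
  Finset.sum_nonneg fun b _ => us_nonneg σ a b c

private theorem mean_eq (y : α → β → γ → ℝ) (P Q : (α × β → Option γ) → ℝ) (z : ℝ) :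
    E y (fun σ => z * ((1 - 1 * P σ) * (1 - 1 * Q σ)))
      = z * (1 - E y P - E y Q + E y (fun σ => P σ * Q σ)) := by
  have e1 : (fun σ : α × β → Option γ => (1 - 1 * P σ) * (1 - 1 * Q σ))
      = fun σ => ((1 - P σ) - Q σ) + P σ * Q σ := by
    funext σ
    ring
  unfold E
  rw [Ex_mul, e1, Ex_add (w := wt y) (fun σ => (1 - P σ) - Q σ) (fun σ => P σ * Q σ),
    Ex_sub (w := wt y) (fun σ => 1 - P σ) Q, Ex_sub (w := wt y) (fun _ => 1) P,
    Ex_one (wt_sum y)]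

private theorem mean_gen {J : Type} [Fintype J] (y : α → β → γ → ℝ) (z : J → ℝ)
    (P Q : J → (α × β → Option γ) → ℝ) (ε μ l : ℝ) (hz : ∀ j, 0 ≤ z j)
    (p1 : ∀ j, E y (P j) ≤ ε) (q1 : ∀ j, E y (Q j) ≤ ε)
    (n0 : ∀ j, 0 ≤ E y (fun σ => P j σ * Q j σ))
    (n1 : ∀ j, E y (fun σ => P j σ * Q j σ) ≤ ε ^ 2 + μ)
    (p2 : ∀ j, z j ≠ 0 → (1 - 2 * ε) * l ≤ E y (P j))
    (q2 : ∀ j, z j ≠ 0 → (1 - 2 * ε) * l ≤ E y (Q j)) :
    (1 - 2 * ε) * ∑ j, z j ≤ E y (fun σ => ∑ j, z j * ((1 - 1 * P j σ) * (1 - 1 * Q j σ))) ∧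
      E y (fun σ => ∑ j, z j * ((1 - 1 * P j σ) * (1 - 1 * Q j σ))) ≤
        (1 - 2 * ((1 - 2 * ε) * l) + ε ^ 2 + μ) * ∑ j, z j := by
  have e0 : E y (fun σ => ∑ j, z j * ((1 - 1 * P j σ) * (1 - 1 * Q j σ)))
      = ∑ j, z j * (1 - E y (P j) - E y (Q j) + E y (fun σ => P j σ * Q j σ)) := by
    have e1 := Ex_sum (w := wt y) (univ : Finset J)
      (fun j σ => z j * ((1 - 1 * P j σ) * (1 - 1 * Q j σ)))
    have e2 : E y (fun σ => ∑ j, z j * ((1 - 1 * P j σ) * (1 - 1 * Q j σ)))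
        = ∑ j, E y (fun σ => z j * ((1 - 1 * P j σ) * (1 - 1 * Q j σ))) := e1
    rw [e2]
    exact Finset.sum_congr rfl fun j _ => mean_eq y (P j) (Q j) (z j)
  rw [e0, Finset.mul_sum, Finset.mul_sum]
  constructor
  · refine Finset.sum_le_sum fun j _ => ?_
    rw [mul_comm (1 - 2 * ε) (z j)]
    refine mul_le_mul_of_nonneg_left ?_ (hz j)
    linarith [p1 j, q1 j, n0 j]
  · refine Finset.sum_le_sum fun j _ => ?_
    rw [mul_comm (1 - 2 * ((1 - 2 * ε) * l) + ε ^ 2 + μ) (z j)]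
    by_cases hj : z j = 0
    · rw [hj, zero_mul, zero_mul]
    · refine mul_le_mul_of_nonneg_left ?_ (hz j)
      linarith [p2 j hj, q2 j hj, n1 j]

end

theorem hMNF : StKMN → StKK1 → StKK2 → StKK3 → StMNF := by
  intro hK h1 h2 h3 α β γ _ _ _ _ _ _ ε μ l y e0 e1 l0 hY
  obtain ⟨kA', kB', kC'⟩ := hK α β γ ε μ y hY
  have hw := fun p v => wt_nonneg hY p v
  have f0 : 0 ≤ 1 - 2 * ε := by linarith
  have uA : ∀ a b, E y (fun σ => kA σ a b) ≤ ε := fun a b => (kA' a b).1.trans (hY.sA a b)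
  have uB : ∀ b c, E y (fun σ => kB σ b c) ≤ ε := fun b c => (kB' b c).1.trans (hY.sB b c)
  have uC : ∀ c a, E y (fun σ => kC σ c a) ≤ ε := fun c a => (kC' c a).1.trans (hY.sC c a)
  have lA : ∀ a b, l ≤ ∑ c, y a b c → (1 - 2 * ε) * l ≤ E y (fun σ => kA σ a b) :=
    fun a b h => (mul_le_mul_of_nonneg_left h f0).trans (kA' a b).2
  have lB : ∀ b c, l ≤ ∑ a, y a b c → (1 - 2 * ε) * l ≤ E y (fun σ => kB σ b c) :=
    fun b c h => (mul_le_mul_of_nonneg_left h f0).trans (kB' b c).2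
  have lC : ∀ c a, l ≤ ∑ b, y a b c → (1 - 2 * ε) * l ≤ E y (fun σ => kC σ c a) :=
    fun c a h => (mul_le_mul_of_nonneg_left h f0).trans (kC' c a).2
  refine ⟨?_, ?_, ?_⟩
  · intro a b z hz hl
    exact mean_gen y z (fun c σ => kB σ b c) (fun c σ => kC σ c a) ε μ l hz
      (fun c => uB b c) (fun c => uC c a)
      (fun c => Ex_nonneg hw fun σ => mul_nonneg (kB_nonneg σ b c) (kC_nonneg σ c a))
      (fun c => (h1 α β γ ε μ y e0 hY a b c).trans (by linarith [hY.le a b c]))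
      (fun c hc => lB b c (hl c hc).1) (fun c hc => lC c a (hl c hc).2)
  · intro c a z hz hl
    exact mean_gen y z (fun b σ => kA σ a b) (fun b σ => kB σ b c) ε μ l hz
      (fun b => uA a b) (fun b => uB b c)
      (fun b => Ex_nonneg hw fun σ => mul_nonneg (kA_nonneg σ a b) (kB_nonneg σ b c))
      (fun b => (h2 α β γ ε μ y e0 hY a b c).trans (by linarith [hY.le a b c]))
      (fun b hb => lA a b (hl b hb).1) (fun b hb => lB b c (hl b hb).2)
  · intro b c z hz hl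
    exact mean_gen y z (fun a σ => kA σ a b) (fun a σ => kC σ c a) ε μ l hz
      (fun a => uA a b) (fun a => uC c a)
      (fun a => Ex_nonneg hw fun σ => mul_nonneg (kA_nonneg σ a b) (kC_nonneg σ c a))
      (fun a => (h3 α β γ ε μ y e0 hY a b c).trans (by linarith [hY.le a b c]))
      (fun a ha => lA a b (hl a ha).1) (fun a ha => lC c a (hl a ha).2)

end Pool.Agent.Helper33.IA85
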