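import Pool.Agent.Helper85.IA.St

/-!
# Project IA, part N, module NIF: final form of the nibble
-/

set_option autoImplicit false

namespace Pool.Agent.Helper33.IA85

open Finset Pool.Agent.Helper93.IA Pool.Agent.Helper85.IA

private theorem d1_le {X Y : Type} [Fintype Y] [DecidableEq X] [DecidableEq Y]
    (A : Finset (X × Y)) (a : X) : d1 A a ≤ Fintype.card Y := by
  unfold d1
  rw [← Finset.card_univ]
  refine Finset.card_le_card_of_injOn (fun e => e.2) (fun e _ => Finset.mem_coe.2 (mem_univ _)) ?_
  intro e he e' he' h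
  have h1 := (Finset.mem_filter.1 (Finset.mem_coe.1 he)).2
  have h2 := (Finset.mem_filter.1 (Finset.mem_coe.1 he')).2
  exact Prod.ext (h1.trans h2.symm) h

private theorem d2_le {X Y : Type} [Fintype X] [DecidableEq X] [DecidableEq Y]
    (A : Finset (X × Y)) (b : Y) : d2 A b ≤ Fintype.card X := by
  unfold d2
  rw [← Finset.card_univ]
  refine Finset.card_le_card_of_injOn (fun e => e.1) (fun e _ => Finset.mem_coe.2 (mem_univ _)) ?_
  intro e he e' he' h
  have h1 := (Finset.mem_filter.1 (Finset.mem_coe.1 he)).2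
  have h2 := (Finset.mem_filter.1 (Finset.mem_coe.1 he')).2
  exact Prod.ext h (h1.trans h2.symm)

private theorem sm_one {X Y : Type} [Fintype X] [Fintype Y] [DecidableEq X] [DecidableEq Y]
    (A : Finset (X × Y)) (n : ℕ) (hX : Fintype.card X = n) (hY : Fintype.card Y = n) :
    Sm A (1 * n) := by
  constructor
  · intro a
    rw [one_mul]
    exact_mod_cast (d1_le A a).trans (le_of_eq hY)
  · intro b
    rw [one_mul]
    exact_mod_cast (d2_le A b).trans (le_of_eq hX)

theorem hNIF : StITE → StNIF := by
  intro hITE Λ g hΛ hg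
  obtain ⟨δ, hδ, n0, hn0⟩ := hITE Λ g hΛ hg
  refine ⟨δ, n0, hδ, ?_⟩
  intro α β γ _ _ _ _ _ _ n hn hα hβ hγ A B C x x0 xl sup lA uA lB uB lC uC
  exact hn0 α β γ n hn A B C x
    { nα := hα
      nβ := hβ
      nγ := hγ
      x0 := x0
      xl := xl
      sup := sup
      lA := lA
      uA := uA
      lB := lB
      uB := uB
      lC := lC
      uC := uC
      dA := sm_one A n hα hβ
      dB := sm_one B n hβ hγ
      dC := sm_one C n hγ hα }

end Pool.Agent.Helper33.IA85
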